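import Pool.Agent.Helper68.QS.St1

/-!
# Project QD: straightening and transfer, module SGH
-/

open MeasureTheory Set Filter Topology Complex
open scoped ContDiff ComplexConjugate ENNReal

namespace Pool.Agent.Helper11.QS

open Pool.Agent.Helper68.QS Pool.Agent.Helper68.QC
open Pool.Agent.Helper61.QE (D Dx rf SU Fu FD Ab sy nuT muT syX syY Kap En Et)

/-- the identity intertwines -/
theorem intw_of_id (A : SL) (f : ℂ → ℂ) (hf : ∀ z, f z = z) : Intw A A f := by
  refine ⟨fun z => by rw [hf z], fun z _ => by rw [hf, hf], Iff.rfl, fun _ => by rw [hf]⟩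

/-- SGH: straightening. -/
theorem pSGH (_hEX : StEX) (hFAC : StFAC) (hREP : StREP)
    (hSUB : Pool.Agent.Helper61.QE.StSUB) (hEDD : Pool.Agent.Helper61.QE.StEDD)
    (hCOE : Pool.Agent.Helper61.QE.StCOE) (hCGR : StCGR) (hINP : StINP) : StSGH := by
  intro Γ _ s₀ k μ₀ Ψ hk0 hk1 hSU hBel hSol hne heqv
  obtain ⟨-, -, -, sDen, -, -, -, -, -, -⟩ := hSUB
  have hKap : Kap s₀ k (D.indicator μ₀) := by
    refine ⟨⟨hBel.meas.indicator measurableSet_ball, fun z => ?_⟩, fun z hz => ?_, fun γ => ?_⟩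
    · by_cases h : z ∈ D
      · rw [indicator_of_mem h]
        exact hBel.le z
      · rw [indicator_of_notMem h, norm_zero]
        exact hk0
    · refine indicator_of_notMem ?_ _
      simp only [Metric.mem_ball, dist_zero_right, not_lt]
      exact hz
    · obtain ⟨c, hc⟩ := heqv γ
      exact hINP k μ₀ Ψ (s₀ γ) c hk0 hk1 hBel hSol hne (hSU γ) hc
  obtain ⟨-, -, mBel, mInv, mSym, mEq⟩ := hCOE Γ s₀ (fun _ => 0) (D.indicator μ₀) k hSU
    ⟨differentiableOn_const 0, fun γ => ⟨0, fun z _ => by simp⟩⟩ hk0 hKap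
  have mEq' : ∀ z ∈ D, syY (D.indicator μ₀) z = μ₀ z := by
    intro z hz
    rw [mEq z hz 0]
    simp [Pool.Agent.Helper61.QE.muT, indicator_of_mem hz]
  generalize syY (D.indicator μ₀) = m at mBel mInv mSym mEq'
  obtain ⟨fD, fDx, fRf, -, f0, -, fSU⟩ := hEDD k hk1 m mBel mSym
  have hSolm : Sol m D Ψ := by
    obtain ⟨a, b, hw, hab⟩ := hSol
    refine ⟨a, b, hw, ?_⟩
    filter_upwards [hab, ae_restrict_mem measurableSet_ball] with z hz hzD
    rw [hz, mEq' z hzD]
  have hhol := hFAC k hk1 m mBel D Ψ Metric.isOpen_ball hSolm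
  rw [fD] at hhol
  -- the representation
  set k₁ : ℝ := max k (1 / 2) with hk₁
  have hk₁k : k ≤ k₁ := le_max_left _ _
  have hk₁h : 1 / 2 ≤ k₁ := le_max_right _ _
  have hk₁1 : k₁ < 1 := max_lt hk1 (by norm_num)
  have hk₁0 : 0 < k₁ := by linarith
  set r : ℝ := (1 + 1 / k₁) / 2 with hr
  have hrk : r * k₁ = (1 + k₁) / 2 := by
    rw [hr]
    field_simp
    ring
  have hr1 : 1 < r := by
    have : 1 < 1 / k₁ := by
      rw [lt_div_iff₀ hk₁0]
      linarith
    rw [hr]
    linarith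
  have hμ : ∀ t ∈ Metric.ball (0 : ℂ) r, Bel ((1 + k₁) / 2) (fun z => t * m z) := by
    intro t ht
    refine ⟨measurable_const.mul mBel.meas, fun z => ?_⟩
    rw [norm_mul, ← hrk]
    simp only [Metric.mem_ball, dist_zero_right] at ht
    exact mul_le_mul ht.le ((mBel.le z).trans hk₁k) (norm_nonneg _) (by linarith)
  have h00 : ∀ z, nq (fun z => (0 : ℂ) * m z) z = z := by
    refine hCGR.2 _ ⟨measurable_const.mul mBel.meas, fun z => ?_⟩
    simp
  obtain ⟨ρ, -, -, hρ⟩ := hREP ((1 + k₁) / 2) (by linarith) 0 r (fun t z => t * m z) hμ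
    (fun z => (differentiableOn_id.mul (differentiableOn_const _))) Γ inferInstance s₀ s₀
    (fun t _ γ => by
      filter_upwards [mInv γ] with z hz
      rw [mul_assoc, hz, mul_assoc])
    (fun γ => intw_of_id (s₀ γ) _ h00) (by linarith)
  have h1 : (1 : ℂ) ∈ Metric.ball (0 : ℂ) r := by
    simp only [Metric.mem_ball, dist_zero_right, norm_one]
    exact hr1
  have hint : ∀ γ, Intw (s₀ γ) (ρ 1 γ) (nq m) := by
    intro γ
    have h2 := hρ 1 h1 γ
    have e : (fun z => (1 : ℂ) * m z) = m := funext fun z => one_mul _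
    rw [e] at h2
    exact h2
  refine ⟨nq m, ρ 1, fD, fDx, f0, fRf, fun γ => fSU _ _ (hSU γ) (hint γ), hint,
    hhol, fun γ => ?_, ?_⟩
  · obtain ⟨c, hc⟩ := heqv γ
    refine ⟨c, fun z hz => ?_⟩
    have hz' : z ∈ nq m '' D := by rw [fD]; exact hz
    obtain ⟨x, hx, rfl⟩ := hz'
    have hxn : ‖x‖ ≤ 1 := by
      simp only [Metric.mem_ball, dist_zero_right] at hx
      exact hx.le
    show Ψ ((nq m).symm (mob (ρ 1 γ) (nq m x))) = Ψ ((nq m).symm (nq m x)) + c
    rw [← (hint γ).2.1 x (sDen _ (hSU γ) x hxn), Homeomorph.symm_apply_apply,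
      Homeomorph.symm_apply_apply]
    exact hc x hx
  · by_contra hcon
    obtain ⟨z, hz, w, hw, hzw⟩ := hne
    have hd : ∀ x ∈ D, deriv (fun z => Ψ ((nq m).symm z)) x = 0 := by
      intro x hx
      by_contra h
      exact hcon ⟨x, hx, h⟩
    have hz' : nq m z ∈ D := by
      rw [← fD]
      exact ⟨z, hz, rfl⟩
    have hw' : nq m w ∈ D := by
      rw [← fD]
      exact ⟨w, hw, rfl⟩
    have h3 := Metric.isOpen_ball.is_const_of_deriv_eq_zero
      (convex_ball (0 : ℂ) 1).isPreconnected hhol hd hz' hw'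
    simp only [Homeomorph.symm_apply_apply] at h3
    exact hzw h3

end Pool.Agent.Helper11.QS
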